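import Mathlib
import Pool.Agent.V11243.NamesNW
import Pool.Agent.V11243.GenericX
import Pool.Agent.V11243.OracleX
import Pool.Agent.V11243.TOp

/-!
# An introreducible set that is not finitely decomposable

`A = {⟨i, (X ↾ n)[i := 0]⟩ : i < n}` for a sufficiently generic `X : ℕ → ℕ`.
-/

namespace Pool.Agent.Results.MP_76bd4c_lc.NotFinitelyDecomposable

open Pool.Agent.V11243.GenericX Pool.Agent.V11243.OracleX Pool.Agent.V11243.TOp

/-- `Φ^C = A`: the Turing operator `Φ` with oracle (the characteristic function of) `C` computes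
the characteristic function of `A`. -/
def Computes (Φ : TuringOp) (C A : Set ℕ) : Prop :=
  ∀ n, Φ.eval (chi C) n = Part.some (chi A n)

/-- `A ≤ᵘⁱ_T B`. -/
def LeUI (A B : Set ℕ) : Prop :=
  ∃ Φ : TuringOp, ∀ C ⊆ B, C.Infinite → Computes Φ C A

/-- `A` is introreducible (with Mathlib's Turing reducibility). -/
def Introreducible (A : Set ℕ) : Prop :=
  A.Infinite ∧ ∀ C ⊆ A, C.Infinite → TuringReducible (chi A : ℕ →. ℕ) (chi C : ℕ →. ℕ)

/-- `A` is a finite union `A₀ ∪ ⋯ ∪ Aₙ` with `A ≤ᵘⁱ_T Aᵢ` for every `i ≤ n`. -/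
def FinitelyDecomposable (A : Set ℕ) : Prop :=
  ∃ n : ℕ, ∃ B : Fin (n + 1) → Set ℕ, A = ⋃ i, B i ∧ ∀ i, LeUI A (B i)

theorem result : ∃ A : Set ℕ, Introreducible A ∧ ¬ FinitelyDecomposable A := by
  classical
  obtain ⟨X, hX⟩ := main_thm (fun (Φ : TuringOp) (C : Set ℕ) => {e | 1 ∈ Φ.eval (chi C) e}) (by
    intro Φ C e he
    obtain ⟨u, hu⟩ := use (chi C) Φ e 1 he
    refine ⟨u, fun C' hC' => hu _ ?_⟩
    intro k hk
    by_cases hkC : k ∈ C
    · rw [chi_of_mem hkC, chi_of_mem ((hC' k hk).2 hkC)]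
    · rw [chi_of_not_mem hkC, chi_of_not_mem (fun h => hkC ((hC' k hk).1 h))])
  refine ⟨AX X, ⟨AX_infinite X, fun C hC hinf => AX_introreducible X hC hinf⟩, ?_⟩
  rintro ⟨n, B, hB, hUI⟩
  choose Φ hΦ using hUI
  obtain ⟨i, -, R, hR, hRinf, -, h⟩ := hX (List.ofFn Φ) 0
  -- some piece meets `R` in an infinite set
  obtain ⟨j, hj⟩ : ∃ j, (B j ∩ R).Infinite := by
    by_contra hcon
    push Not at hcon
    apply hRinf
    have : R ⊆ ⋃ j, (B j ∩ R) := by
      intro e he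
      have h1 := hR he
      rw [hB] at h1
      obtain ⟨j, hj⟩ := Set.mem_iUnion.1 h1
      exact Set.mem_iUnion.2 ⟨j, hj, he⟩
    exact (Set.finite_iUnion hcon).subset this
  have hout : {e | 1 ∈ (Φ j).eval (chi (B j ∩ R)) e} = AX X := by
    ext e
    have h1 := hΦ j (B j ∩ R) Set.inter_subset_left hj e
    rw [Set.mem_ofPred_eq, h1, Part.mem_some_iff]
    rw [eq_comm, chi_eq_one]
  rcases h (Φ j) (List.mem_ofFn.2 ⟨j, rfl⟩) (B j ∩ R) Set.inter_subset_right hj with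
    ⟨y, y', hne, ⟨e, he, hd⟩, ⟨e', he', hd'⟩⟩ | hno
  · rw [hout] at he he'
    exact hne ((dec_of_mem he hd).trans (dec_of_mem he' hd').symm)
  · apply hno
    rw [hout]
    exact ⟨_, ⟨i + 1, i + 2, by omega, rfl⟩, dec_mk X (by omega) (by omega)⟩

end Pool.Agent.Results.MP_76bd4c_lc.NotFinitelyDecomposable
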